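import Mathlib

namespace Pool.Agent.Results.MP_a09a4b_an.Mixed

noncomputable def cost (s : List Bool → ℝ) (h : ℝ) : ℕ → ℝ
  | 0 => 0
  | m + 1 => if s [] = h then 0
      else |s [] - h| + cost (fun l => s (decide (s [] < h) :: l)) h m

noncomputable def payoff (s : List Bool → ℝ) (h : ℝ) : ENNReal :=
  ⨆ m : ℕ, ENNReal.ofReal (cost s h m)

lemma cost_lt (s : List Bool → ℝ) (h : ℝ) (m : ℕ) (hl : s [] < h) :
    cost s h (m + 1) = h - s [] + cost (fun l => s (true :: l)) h m := by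
  simp only [cost, hl.ne, if_false, hl, decide_true]
  rw [abs_of_neg (by linarith)]; ring

lemma cost_gt (s : List Bool → ℝ) (h : ℝ) (m : ℕ) (hl : h < s []) :
    cost s h (m + 1) = s [] - h + cost (fun l => s (false :: l)) h m := by
  simp only [cost, hl.ne', if_false, hl.not_gt, decide_false]
  rw [abs_of_pos (by linarith)]

lemma cost_eq (s : List Bool → ℝ) (h : ℝ) (m : ℕ) (hl : s [] = h) : cost s h (m + 1) = 0 := by
  simp only [cost, hl, if_true]

noncomputable def L : ℕ → ℤ → ℝ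
  | 0, k => max k 0
  | d + 1, k => L d (k + 1) * (1 + L d (k - 1)) / (L d (k + 1) - k + 1 + L d (k - 1))

lemma L_ge (d : ℕ) : ∀ k : ℤ, (k : ℝ) ≤ L d k ∧ 0 ≤ L d k := by
  induction d with
  | zero => intro k; simp [L]
  | succ d ih =>
    intro k
    obtain ⟨h1, h2⟩ := ih (k + 1)
    obtain ⟨h3, h4⟩ := ih (k - 1)
    push_cast at h1 h3
    have hD : 0 < L d (k + 1) - k + 1 + L d (k - 1) := by linarith
    refine ⟨?_, by simp only [L]; positivity⟩
    simp only [L]
    rw [le_div_iff₀ hD]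
    nlinarith

lemma lower (d : ℕ) : ∀ (k : ℤ) (s : List Bool → ℝ) (a b c : ℝ), a < b → c < L d k →
    ∃ u v, a ≤ u ∧ u < v ∧ v ≤ b ∧
      ∀ h, u < h → h < v → c * (b - a) ≤ k * (h - a) + cost s h d := by
  induction d with
  | zero =>
    intro k s a b c hab hc
    simp only [L, cost, add_zero] at hc ⊢
    have hl : 0 < b - a := by linarith
    rcases le_or_gt 1 k with hk | hk
    · have hk' : (1 : ℝ) ≤ k := by exact_mod_cast hk
      rw [max_eq_left (by linarith)] at hc
      have h1 : c / k < 1 := (div_lt_one (by linarith)).2 hc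
      have h2 : max 0 (c / k) < 1 := max_lt one_pos h1
      have h3 := le_max_left 0 (c / k)
      have h4 : c ≤ k * max 0 (c / k) := by
        have := le_max_right 0 (c / k)
        rwa [div_le_iff₀' (by linarith)] at this
      refine ⟨a + max 0 (c / k) * (b - a), b, by nlinarith, by nlinarith, le_rfl, fun h hu _ => ?_⟩
      generalize max 0 (c / k) = t at *
      have h5 : k * (t * (b - a)) ≤ k * (h - a) := by nlinarith
      nlinarith
    · have hk' : (k : ℝ) ≤ 0 := by exact_mod_cast (by omega : k ≤ 0)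
      rw [max_eq_right hk'] at hc
      have h1 : 0 < (-c) / (1 - k) := div_pos (by linarith) (by linarith)
      have h2 : 0 < min 1 ((-c) / (1 - k)) := lt_min one_pos h1
      have h3 := min_le_left 1 ((-c) / (1 - k))
      have h4 : min 1 ((-c) / (1 - k)) * (1 - k) ≤ -c := by
        have := min_le_right 1 ((-c) / (1 - k))
        rwa [le_div_iff₀ (by linarith)] at this
      refine ⟨a, a + min 1 ((-c) / (1 - k)) * (b - a), le_rfl, by nlinarith, by nlinarith,
        fun h hu hv => ?_⟩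
      generalize min 1 ((-c) / (1 - k)) = t at *
      have h5 : k * (t * (b - a)) ≤ k * (h - a) := by nlinarith
      nlinarith
  | succ d ih =>
    intro k s a b c hab hc
    obtain ⟨h1, h2⟩ := L_ge d (k + 1)
    obtain ⟨h3, h4⟩ := L_ge d (k - 1)
    push_cast at h1 h3
    have hD : 0 < L d (k + 1) - k + 1 + L d (k - 1) := by linarith
    have hl : 0 < b - a := by linarith
    obtain ⟨x, hx⟩ : ∃ x, x * (L d (k + 1) - k + 1 + L d (k - 1)) = L d (k + 1) :=
      ⟨L d (k + 1) / (L d (k + 1) - k + 1 + L d (k - 1)), by field_simp⟩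
    have hv : L (d + 1) k = x * (1 + L d (k - 1)) := by
      simp only [L]
      rw [div_eq_iff hD.ne']
      linear_combination (-(1 + L d (k - 1))) * hx
    have x0 : 0 ≤ x := by
      by_contra hn
      push Not at hn
      nlinarith
    have x1 : x ≤ 1 := by
      by_contra hn
      push Not at hn
      nlinarith
    rw [hv] at hc
    by_cases hg : s [] ≤ a + x * (b - a) ∧ s [] < b
    · obtain ⟨u, v, k1, k2, k3, k4⟩ := ih (k + 1) (fun l => s (true :: l)) (max (s []) a) b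
        (L d (k + 1) - (x * (1 + L d (k - 1)) - c)) (max_lt hg.2 hab) (by linarith)
      have m1 := le_max_left (s []) a
      have m2 := le_max_right (s []) a
      have m3 : max (s []) a ≤ a + x * (b - a) := max_le hg.1 (by nlinarith)
      refine ⟨u, v, by linarith, k2, k3, fun h hu hv => ?_⟩
      have k5 := k4 h hu hv
      rw [cost_lt s h d (by linarith)]
      push_cast at k5
      generalize max (s []) a = g at *
      have e1 : (x * (1 + L d (k - 1)) - c) * (b - g) ≤ (x * (1 + L d (k - 1)) - c) * (b - a) :=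
        mul_le_mul_of_nonneg_left (by linarith) (by linarith)
      have e2 : (L d (k + 1) - k) * (g - a) ≤ (L d (k + 1) - k) * (x * (b - a)) :=
        mul_le_mul_of_nonneg_left (by linarith) (by linarith)
      have e3 : x * (L d (k + 1) - k + 1 + L d (k - 1)) * (b - a) = L d (k + 1) * (b - a) := by
        rw [hx]
      nlinarith
    · have m0 : a + x * (b - a) ≤ min (s []) b ∧ a < min (s []) b := by
        rcases not_and_or.1 hg with h | h
        · push Not at h
          exact ⟨le_min h.le (by nlinarith), lt_min (by nlinarith) hab⟩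
        · push Not at h
          rw [min_eq_right h]
          exact ⟨by nlinarith, hab⟩
      obtain ⟨u, v, k1, k2, k3, k4⟩ := ih (k - 1) (fun l => s (false :: l)) a (min (s []) b)
        (L d (k - 1) - (x * (1 + L d (k - 1)) - c)) m0.2 (by linarith)
      have m1 := min_le_left (s []) b
      have m2 := min_le_right (s []) b
      have m3 := m0.1
      refine ⟨u, v, k1, k2, by linarith, fun h hu hv => ?_⟩
      have k5 := k4 h hu hv
      rw [cost_gt s h d (by linarith)]
      push_cast at k5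
      generalize min (s []) b = g at *
      have e1 : (x * (1 + L d (k - 1)) - c) * (g - a) ≤ (x * (1 + L d (k - 1)) - c) * (b - a) :=
        mul_le_mul_of_nonneg_left (by linarith) (by linarith)
      have e2 : (1 + L d (k - 1)) * (x * (b - a)) ≤ (1 + L d (k - 1)) * (g - a) :=
        mul_le_mul_of_nonneg_left (by linarith) (by linarith)
      nlinarith

lemma L7 : (0.623 : ℝ) < L 7 0 := by norm_num [L]

lemma pure (s : List Bool → ℝ) :
    ∃ h ∈ Set.Icc (0 : ℝ) 1, h ∉ Set.range s ∧ ENNReal.ofReal 0.623 ≤ payoff s h := by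
  obtain ⟨u, v, h1, h2, h3, h4⟩ := lower 7 0 s 0 1 0.623 one_pos L7
  obtain ⟨h, hh, hu⟩ := ((Set.countable_range s).dense_compl ℝ).exists_mem_open isOpen_Ioo
    (Set.nonempty_Ioo.2 h2)
  refine ⟨h, ⟨by linarith [hu.1], by linarith [hu.2]⟩, hh, ?_⟩
  refine le_iSup_of_le 7 (ENNReal.ofReal_le_ofReal ?_)
  simpa using h4 h hu.1 hu.2

def U (k : ℤ) : ℤ :=
  if k = 0 then 125 else if k = 1 then 250 else if k = 2 then 416 else if k = -1 then 50
  else if k = -2 then 16 else if 0 < k then 200 * k + 4 else 4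

noncomputable def γ (k : ℤ) : ℝ :=
  if k = 0 then 0.5 else if k = 1 then 0.769 else if k = 2 then 0.922 else if k = -1 then 0.231
  else if k = -2 then 0.078 else if 0 < k then 0.9805 else 0.0195

lemma Uγ (k : ℤ) : 0 ≤ γ k ∧ γ k ≤ 1 ∧ (0 : ℝ) ≤ U k ∧ (200 * k : ℝ) ≤ U k ∧
    200 * k * γ k + (1 - γ k) * U (k + 1) ≤ U k ∧ γ k * (200 + U (k - 1)) ≤ U k := by
  rcases lt_or_ge k (-3) with h | h
  · have hk : (k : ℝ) ≤ -4 := by exact_mod_cast (by omega : k ≤ -4)
    have e1 : U k = 4 := by unfold U; split_ifs <;> omega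
    have e2 : U (k + 1) = 4 := by unfold U; split_ifs <;> omega
    have e3 : U (k - 1) = 4 := by unfold U; split_ifs <;> omega
    have e4 : γ k = 0.0195 := by unfold γ; split_ifs <;> first | omega | rfl
    rw [e1, e2, e3, e4]
    push_cast
    refine ⟨?_, ?_, ?_, ?_, ?_, ?_⟩ <;> linarith
  rcases lt_or_ge 3 k with h' | h'
  · have hk : (4 : ℝ) ≤ k := by exact_mod_cast (by omega : 4 ≤ k)
    have e1 : U k = 200 * k + 4 := by unfold U; split_ifs <;> omega
    have e2 : U (k + 1) = 200 * k + 204 := by unfold U; split_ifs <;> omega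
    have e3 : U (k - 1) = 200 * k - 196 := by unfold U; split_ifs <;> omega
    have e4 : γ k = 0.9805 := by unfold γ; split_ifs <;> first | omega | rfl
    rw [e1, e2, e3, e4]
    push_cast
    refine ⟨?_, ?_, ?_, ?_, ?_, ?_⟩ <;> linarith
  interval_cases k <;> norm_num [U, γ]

noncomputable def tail : ℤ → ℝ → ℝ → List Bool → ℝ
  | k, a, b, [] => a + γ k * (b - a)
  | k, a, b, true :: l => tail (k + 1) (a + γ k * (b - a)) b l
  | k, a, b, false :: l => tail (k - 1) a (a + γ k * (b - a)) l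

lemma tail_mem (l : List Bool) : ∀ k a b, a ≤ b → a ≤ tail k a b l ∧ tail k a b l ≤ b := by
  induction l with
  | nil =>
    intro k a b hab
    obtain ⟨h1, h2, -⟩ := Uγ k
    simp only [tail]
    constructor <;> nlinarith
  | cons x l ih =>
    intro k a b hab
    obtain ⟨h1, h2, -⟩ := Uγ k
    have g1 : a ≤ a + γ k * (b - a) := by nlinarith
    have g2 : a + γ k * (b - a) ≤ b := by nlinarith
    cases x
    · have := ih (k - 1) a _ g1
      simp only [tail]
      constructor <;> linarith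
    · have := ih (k + 1) _ b g2
      simp only [tail]
      constructor <;> linarith

lemma tail_bd (m : ℕ) : ∀ (k : ℤ) (a b h : ℝ), a ≤ h → h ≤ b →
    200 * (k * (h - a) + cost (tail k a b) h m) ≤ U k * (b - a) := by
  have base : ∀ (k : ℤ) (a b h : ℝ), a ≤ h → h ≤ b → 200 * (k * (h - a) + 0) ≤ U k * (b - a) := by
    intro k a b h ha hb
    obtain ⟨-, -, h3, h4, -⟩ := Uγ k
    nlinarith
  induction m with
  | zero => exact base
  | succ m ih =>
    intro k a b h ha hb
    obtain ⟨h1, h2, h3, h4, h5, h6⟩ := Uγ k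
    have hl : 0 ≤ b - a := by linarith
    rcases lt_trichotomy (tail k a b []) h with hc | hc | hc
    · rw [cost_lt _ _ _ hc]
      simp only [tail] at hc ⊢
      have := ih (k + 1) _ b h hc.le hb
      have e := mul_le_mul_of_nonneg_right h5 hl
      push_cast at this
      nlinarith
    · rw [cost_eq _ _ _ hc]; exact base k a b h ha hb
    · rw [cost_gt _ _ _ hc]
      simp only [tail] at hc ⊢
      have := ih (k - 1) a _ h ha hc.le
      have e := mul_le_mul_of_nonneg_right h6 hl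
      push_cast at this
      nlinarith

inductive Tr
  | o : Tr
  | n : ℕ → Tr → Tr → Tr

open Tr

noncomputable def strat : Tr → ℤ → ℕ → ℕ → List Bool → ℝ
  | o, k, a, b, l => tail k (a / 100) (b / 100) l
  | n g _ _, _, _, _, [] => g / 100
  | n g _ r, k, _, b, true :: l => strat r (k + 1) g b l
  | n g r _, k, a, _, false :: l => strat r (k - 1) a g l

def wf : Tr → ℕ → ℕ → Bool
  | o, a, b => decide (a ≤ b) && decide (b ≤ 100)
  | n g p q, a, b => decide (g ≤ 100) && wf p a g && wf q g b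

def bd : Tr → ℤ → ℕ → ℕ → ℕ → ℤ
  | o, k, a, b, _ => 200 * k * a + U k * (b - a)
  | n g p q, k, a, b, i =>
    if i < g then bd p (k - 1) a g i + 200 * g else bd q (k + 1) g b i - 200 * g

lemma strat_mem (t : Tr) : ∀ k a b l, wf t a b = true → strat t k a b l ∈ Set.Icc (0 : ℝ) 1 := by
  induction t with
  | o =>
    intro k a b l h
    simp only [wf, Bool.and_eq_true, decide_eq_true_eq] at h
    have h1 : (a : ℝ) ≤ b := by exact_mod_cast h.1
    have h2 : (b : ℝ) ≤ 100 := by exact_mod_cast h.2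
    have h3 : (0 : ℝ) ≤ a := by positivity
    have := tail_mem l k (a / 100) (b / 100) (by linarith)
    simp only [strat]
    constructor <;> linarith
  | n g p q ihp ihq =>
    intro k a b l h
    simp only [wf, Bool.and_eq_true, decide_eq_true_eq] at h
    rcases l with _ | ⟨_ | _, l⟩
    · have h2 : (g : ℝ) ≤ 100 := by exact_mod_cast h.1.1
      have h3 : (0 : ℝ) ≤ g := by positivity
      simp only [strat]
      constructor <;> linarith
    · exact ihp _ _ _ _ h.1.2
    · exact ihq _ _ _ _ h.2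

lemma strat_bd (t : Tr) (i : ℕ) (h : ℝ) (h1 : (i : ℝ) ≤ 100 * h) (h2 : 100 * h ≤ i + 1) :
    ∀ (k : ℤ) (a b m : ℕ), a ≤ i → i < b →
      20000 * (k * h + cost (strat t k a b) h m) ≤ bd t k a b i := by
  induction t with
  | o =>
    intro k a b m ha hb
    have a1 : (a : ℝ) ≤ i := by exact_mod_cast ha
    have a2 : (i : ℝ) + 1 ≤ b := by exact_mod_cast hb
    have := tail_bd m k (a / 100) (b / 100) h (by linarith) (by linarith)
    have e : strat o k a b = tail k (a / 100) (b / 100) := by funext l; simp only [strat]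
    rw [e]
    simp only [bd]
    push_cast
    linarith
  | n g p q ihp ihq =>
    intro k a b m ha hb
    have e0 : strat (n g p q) k a b [] = g / 100 := by simp only [strat]
    simp only [bd]
    split_ifs with hi
    · have a2 : (i : ℝ) + 1 ≤ g := by exact_mod_cast hi
      have b0 := ihp (k - 1) a g 0 ha hi
      simp only [cost] at b0
      push_cast at b0 ⊢
      rcases m with _ | m
      · simp only [cost]; linarith
      rcases eq_or_lt_of_le (show h ≤ strat (n g p q) k a b [] by rw [e0]; linarith) with hc | hc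
      · rw [cost_eq _ _ _ hc.symm]; linarith
      · rw [cost_gt _ _ _ hc, e0]
        have := ihp (k - 1) a g m ha hi
        simp only [strat]
        push_cast at this
        linarith
    · have a2 : (g : ℝ) ≤ i := by exact_mod_cast not_lt.1 hi
      have b0 := ihq (k + 1) g b 0 (not_lt.1 hi) hb
      simp only [cost] at b0
      push_cast at b0 ⊢
      rcases m with _ | m
      · simp only [cost]; linarith
      rcases eq_or_lt_of_le (show strat (n g p q) k a b [] ≤ h by rw [e0]; linarith) with hc | hc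
      · rw [cost_eq _ _ _ hc]; linarith
      · rw [cost_lt _ _ _ hc, e0]
        have := ihq (k + 1) g b m (not_lt.1 hi) hb
        simp only [strat]
        push_cast at this
        linarith

def t0 : Tr :=
    (n 54 (n 14 (n 2 o (n 7 (n 3 o (n 4 o (n 6 o o))) (n 10 (n 8 o o) (n 12 o (n 13 o o))))) (n 38
    (n 22 (n 16 (n 15 o o) (n 18 (n 17 o o) (n 21 o o))) (n 30 (n 25 (n 23 o o) (n 28 (n 26 o o) (n
    29 o o))) (n 35 (n 32 o (n 33 o (n 34 o o))) (n 37 (n 36 o o) o)))) (n 48 (n 45 (n 42 (n 40 (n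
    39 o o) (n 41 o o)) (n 44 o o)) (n 46 o (n 47 o o))) (n 51 (n 49 o (n 50 o o)) (n 52 o (n 53 o
    o)))))) (n 93 (n 78 (n 64 (n 57 (n 55 o o) (n 61 (n 59 (n 58 o o) (n 60 o o)) (n 62 o o))) (n
    72 (n 67 (n 65 o (n 66 o o)) o) (n 75 (n 73 o o) (n 77 (n 76 o o) o)))) (n 87 (n 84 (n 81 (n 80
    (n 79 o o) o) (n 83 (n 82 o o) o)) (n 85 o (n 86 o o))) (n 90 (n 88 o o) (n 92 (n 91 o o) o))))
    o))

def t1 : Tr :=
    (n 51 (n 12 o (n 32 (n 18 (n 14 o o) (n 25 (n 21 (n 19 o (n 20 o o)) (n 23 (n 22 o o) (n 24 o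
    o))) (n 29 o (n 31 (n 30 o o) o)))) (n 45 (n 39 (n 36 (n 34 (n 33 o o) o) (n 37 o (n 38 o o)))
    o) (n 48 (n 47 o o) (n 50 (n 49 o o) o))))) (n 91 (n 73 (n 58 (n 53 (n 52 o o) (n 55 (n 54 o o)
    o)) (n 65 (n 61 (n 59 o (n 60 o o)) o) (n 69 (n 67 (n 66 o o) (n 68 o o)) (n 72 (n 71 o o)
    o)))) (n 85 (n 80 (n 76 (n 74 o (n 75 o o)) (n 78 (n 77 o o) (n 79 o o))) (n 84 (n 82 (n 81 o
    o) o) o)) (n 90 (n 88 (n 87 (n 86 o o) o) (n 89 o o)) o))) (n 99 (n 97 (n 93 (n 92 o o) (n 96 o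
    o)) (n 98 o o)) o)))

def t2 : Tr :=
    (n 49 (n 10 o (n 28 (n 15 (n 12 o (n 14 (n 13 o o) o)) (n 21 (n 17 o (n 19 (n 18 o o) o)) (n 25
    (n 24 (n 23 o o) o) (n 27 (n 26 o o) o)))) (n 42 (n 35 (n 31 (n 29 o (n 30 o o)) (n 33 (n 32 o
    o) o)) (n 39 (n 37 o (n 38 o o)) (n 41 (n 40 o o) o))) (n 46 (n 45 (n 44 o o) o) (n 48 (n 47 o
    o) o))))) (n 88 (n 67 (n 55 (n 52 (n 50 o (n 51 o o)) (n 54 o o)) (n 60 (n 57 o (n 58 o (n 59 o
    o))) (n 63 o (n 65 (n 64 o o) (n 66 o o))))) (n 81 (n 74 (n 70 (n 68 o (n 69 o o)) (n 72 (n 71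
    o o) (n 73 o o))) (n 78 (n 76 (n 75 o o) o) (n 80 (n 79 o o) o))) (n 85 (n 84 (n 83 o o) o) (n
    87 (n 86 o o) o)))) (n 99 (n 95 (n 91 (n 90 (n 89 o o) o) (n 93 o o)) (n 98 (n 97 o o) o)) o)))

def t3 : Tr :=
    (n 46 (n 8 o (n 23 (n 13 (n 10 o (n 11 o o)) (n 17 (n 15 (n 14 o o) o) (n 21 (n 19 (n 18 o o)
    (n 20 o o)) o))) (n 37 (n 30 (n 26 (n 24 o (n 25 o o)) (n 28 (n 27 o o) o)) (n 34 (n 32 (n 31 o
    o) (n 33 o o)) (n 36 (n 35 o o) o))) (n 43 (n 40 (n 38 o (n 39 o o)) (n 42 o o)) (n 45 (n 44 o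
    o) o))))) (n 85 (n 61 (n 53 (n 49 (n 48 (n 47 o o) o) (n 51 (n 50 o o) o)) (n 55 (n 54 o o) (n
    57 o (n 59 (n 58 o o) (n 60 o o))))) (n 75 (n 68 (n 64 (n 62 o (n 63 o o)) (n 66 (n 65 o o) (n
    67 o o))) (n 72 (n 70 (n 69 o o) (n 71 o o)) (n 74 (n 73 o o) o))) (n 82 (n 79 (n 77 (n 76 o o)
    (n 78 o o)) (n 81 (n 80 o o) o)) (n 84 (n 83 o o) o)))) (n 98 (n 93 (n 88 (n 87 (n 86 o o) o)
    (n 91 o o)) (n 97 (n 96 o o) o)) (n 99 o o))))

def ts : Fin 4 → Tr := ![t0, t1, t2, t3]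

lemma chk1 : ∀ j : Fin 4, wf (ts j) 0 100 = true := by decide +kernel

lemma chk2 : ∀ i : Fin 100, (∀ j : Fin 4, 0 ≤ bd (ts j) 0 0 100 i) ∧
    bd t0 0 0 100 i + bd t1 0 0 100 i + bd t2 0 0 100 i + bd t3 0 0 100 i ≤ 49760 := by
  decide +kernel

lemma mixed (h : ℝ) (hh : h ∈ Set.Icc (0 : ℝ) 1) :
    (∑ j : Fin 4, payoff (strat (ts j) 0 0 100) h) / 4 ≤ ENNReal.ofReal 0.622 := by
  obtain ⟨i, hi, h1, h2⟩ : ∃ i : ℕ, i < 100 ∧ (i : ℝ) ≤ 100 * h ∧ 100 * h ≤ i + 1 := by
    rcases eq_or_lt_of_le hh.2 with e | e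
    · exact ⟨99, by norm_num, by rw [e]; norm_num, by rw [e]; norm_num⟩
    · refine ⟨⌊100 * h⌋₊, ?_, Nat.floor_le (by linarith [hh.1]), (Nat.lt_floor_add_one _).le⟩
      rw [Nat.floor_lt (by linarith [hh.1])]
      push_cast; linarith
  obtain ⟨c1, c2⟩ := chk2 ⟨i, hi⟩
  have b : ∀ j : Fin 4, payoff (strat (ts j) 0 0 100) h
      ≤ ENNReal.ofReal ((bd (ts j) 0 0 100 i : ℝ) / 20000) := by
    intro j
    refine iSup_le fun m => ENNReal.ofReal_le_ofReal ?_
    have := strat_bd (ts j) i h h1 h2 0 0 100 m (Nat.zero_le _) hi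
    push_cast at this
    linarith
  rw [ENNReal.div_le_iff (by norm_num) (by norm_num)]
  refine (Finset.sum_le_sum fun j _ => b j).trans ?_
  rw [← ENNReal.ofReal_sum_of_nonneg (fun j _ => by
    have : (0 : ℝ) ≤ (bd (ts j) 0 0 100 i : ℝ) := by exact_mod_cast c1 j
    positivity), ← ENNReal.ofReal_ofNat 4, ← ENNReal.ofReal_mul (by norm_num)]
  apply ENNReal.ofReal_le_ofReal
  have c3 : (bd t0 0 0 100 i : ℝ) + bd t1 0 0 100 i + bd t2 0 0 100 i + bd t3 0 0 100 i
      ≤ 49760 := by exact_mod_cast c2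
  simp only [Fin.sum_univ_four, ts, Matrix.cons_val]
  linarith

theorem result : ∃ σ : Fin 4 → List Bool → ℝ, (∀ j l, σ j l ∈ Set.Icc (0 : ℝ) 1) ∧
    (∀ h ∈ Set.Icc (0 : ℝ) 1, (∑ j, payoff (σ j) h) / 4 ≤ ENNReal.ofReal 0.622) ∧
    (∀ s : List Bool → ℝ,
      ∃ h ∈ Set.Icc (0 : ℝ) 1, h ∉ Set.range s ∧ ENNReal.ofReal 0.623 ≤ payoff s h) ∧
    ∀ (s : List Bool → ℝ) (v : ENNReal),
      (∀ h ∈ Set.Icc (0 : ℝ) 1, h ∉ Set.range s → payoff s h = v) →
      ⨆ h ∈ Set.Icc (0 : ℝ) 1, (∑ j, payoff (σ j) h) / 4 < v := by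
  refine ⟨fun j => strat (ts j) 0 0 100, fun j l => strat_mem _ _ _ _ _ (chk1 j), mixed, pure,
    fun s v hv => ?_⟩
  obtain ⟨h, h1, h2, h3⟩ := pure s
  rw [hv h h1 h2] at h3
  refine lt_of_le_of_lt (iSup₂_le mixed) (lt_of_lt_of_le ?_ h3)
  rw [ENNReal.ofReal_lt_ofReal_iff (by norm_num)]
  norm_num

end Pool.Agent.Results.MP_a09a4b_an.Mixed
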